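import Pool.Agent.Helper88.RR.Goals

/-! # All primes at the points of `P` can be avoided -/

set_option autoImplicit false

open Finset Filter Topology

open scoped Classical

namespace Pool.Agent.Helper88.RR

open Pool.Agent.Helper88.PP (pr Rg om Sf SS uu vv ee LA VV QQ NN XX cost nc dd)

theorem om_nonneg (y z : ℕ) : 0 ≤ om y z := by
  refine Finset.prod_nonneg fun p hp => ?_
  have h1 : p.Prime := (Finset.mem_filter.mp hp).2
  have h2 : (2 : ℝ) ≤ p := by exact_mod_cast h1.two_le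
  have h3 : 1 / (p : ℝ) ≤ 1 := by
    rw [div_le_one (by linarith)]
    linarith
  linarith

theorem gg_nonneg (y z k : ℕ) (hk : k ≤ y) : 0 ≤ gg y z k := by
  refine Finset.prod_nonneg fun p hp => ?_
  have h1 := (Finset.mem_Ioc.1 (Finset.mem_filter.mp hp).1).1
  have h2 : (k : ℝ) ≤ p := by exact_mod_cast (by omega : k ≤ p)
  have h3 : (0 : ℝ) < p := by exact_mod_cast (by omega : 0 < p)
  have h4 : (k : ℝ) / p ≤ 1 := by
    rw [div_le_one h3]
    exact h2
  linarith

theorem gg_succ (y z k : ℕ) (hk : k < y) : gg y z (k + 1) ≤ om y z * gg y z k := by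
  rw [gg, gg, om, ← Finset.prod_mul_distrib]
  refine Finset.prod_le_prod (fun p hp => ?_) (fun p hp => ?_)
  · have h1 := (Finset.mem_Ioc.1 (Finset.mem_filter.mp hp).1).1
    have h2 : ((k + 1 : ℕ) : ℝ) ≤ p := by exact_mod_cast (by omega : k + 1 ≤ p)
    have h3 : (0 : ℝ) < p := by exact_mod_cast (by omega : 0 < p)
    have h4 : ((k + 1 : ℕ) : ℝ) / p ≤ 1 := by
      rw [div_le_one h3]
      exact h2
    linarith
  · have h1 := (Finset.mem_Ioc.1 (Finset.mem_filter.mp hp).1).1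
    have h3 : (0 : ℝ) < p := by exact_mod_cast (by omega : 0 < p)
    push_cast
    have h4 : (1 - 1 / (p : ℝ)) * (1 - k / p) = 1 - (k + 1) / p + k / (p * p) := by
      field_simp
      ring
    rw [h4]
    have h5 : (0 : ℝ) ≤ k / (p * p) := by positivity
    linarith

theorem LA_ne {z m m' s : ℕ} (hs : s ∈ LA z m m') : s ≠ 0 ∧ s < z ^ m' := by
  have h1 := (Finset.mem_filter.mp hs).1
  have h2 := Finset.mem_Ico.mp (Finset.mem_filter.mp h1).1
  exact ⟨by omega, h2.2⟩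

theorem ee_le {z m m' s : ℕ} (hs : s ∈ LA z m m') : ee z s ≤ m' := by
  obtain ⟨h1, h2⟩ := LA_ne hs
  exact Nat.log_lt_of_lt_pow h1 h2

theorem sum_wt (m q z : ℕ) (hV : VV z m (q * m) ≠ 0) :
    ∑ s ∈ LA z m (q * m), (ee z s : ℝ) * (ab m q z s ^ 2 * (Nat.totient s : ℝ)) =
      1 / VV z m (q * m) := by
  have h1 : ∀ s ∈ LA z m (q * m), (ee z s : ℝ) * (ab m q z s ^ 2 * (Nat.totient s : ℝ)) =
      1 / VV z m (q * m) ^ 2 * (1 / ((Nat.totient s : ℝ) * ee z s)) := by
    intro s hs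
    have h2 : (Nat.totient s : ℝ) ≠ 0 := by
      have := Nat.totient_pos.mpr (Nat.pos_of_ne_zero (LA_ne hs).1)
      positivity
    have h3 : (ee z s : ℝ) ≠ 0 := by
      have : 0 < ee z s := Nat.succ_pos _
      positivity
    rw [ab]
    field_simp
  rw [Finset.sum_congr rfl h1, ← Finset.mul_sum]
  change 1 / VV z m (q * m) ^ 2 * VV z m (q * m) = _
  field_simp

/-- the tail of the cost -/
theorem tail (h3 : StmtRA) (m q M z y j : ℕ) (P : Finset ℕ) (hP : P.card ≤ y)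
    (hV : VV z m (q * m) ≠ 0) (hj : 2 * (j * (q * m)) ≤ M)
    (hc : 4 * ((P.card : ℝ) * om y z * (1 / VV z m (q * m))) ≤ M) :
    2 ^ j * ∑ r ∈ (TB m q M z P).filter (fun r => M < cost z r + q * m), wb m q y z r ≤
      DB m q M z y P := by
  have h4 := h3 P (LA z m (q * m)) (ee z) (fun s => ab m q z s ^ 2 * (Nat.totient s : ℝ))
    (gg y z) (om y z) M (q * m) j (fun h => (LA_ne h).1 rfl) (fun r hr => ee_le hr)
    (fun r => mul_nonneg (sq_nonneg _) (Nat.cast_nonneg _)) (om_nonneg y z)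
    (fun k hk => gg_nonneg y z k (by rw [Fintype.card_coe] at hk; omega))
    (fun k hk => gg_succ y z k (by rw [Fintype.card_coe] at hk; omega)) hj
    (by rw [sum_wt m q z hV, Fintype.card_coe]; exact hc)
  rw [DB, TB, Finset.filter_filter]
  exact h4

/-- growth -/
theorem grow : ∃ L0 : ℕ, ∀ L : ℕ, L0 ≤ L → (68 * (L / 4 + 1)) ^ 3 ≤ 2 ^ (L / 4) := by
  have h1 : Tendsto (fun k : ℕ => ((k : ℝ)) ^ 3 / (2 : ℝ) ^ k) atTop (𝓝 0) :=
    tendsto_pow_const_div_const_pow_of_one_lt 3 (by norm_num)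
  have h2 : ∀ᶠ k : ℕ in atTop, ((k : ℝ)) ^ 3 / (2 : ℝ) ^ k < 1 / (2 * 68 ^ 3) :=
    h1.eventually (gt_mem_nhds (by positivity))
  obtain ⟨k0, hk0⟩ := eventually_atTop.1 h2
  refine ⟨4 * k0, fun L hL => ?_⟩
  have h3 := hk0 (L / 4 + 1) (by omega)
  rw [div_lt_div_iff₀ (by positivity) (by positivity)] at h3
  have h4 : ((68 * (L / 4 + 1) : ℕ) : ℝ) ^ 3 * 2 < (2 : ℝ) ^ (L / 4 + 1) := by
    push_cast at h3 ⊢
    nlinarith
  rw [pow_succ (2 : ℝ)] at h4
  have h5 : ((68 * (L / 4 + 1) : ℕ) : ℝ) ^ 3 < (2 : ℝ) ^ (L / 4) := by linarith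
  have h6 : (((68 * (L / 4 + 1)) ^ 3 : ℕ) : ℝ) < ((2 ^ (L / 4) : ℕ) : ℝ) := by
    push_cast at h5 ⊢
    exact h5
  exact (by exact_mod_cast h6 : (68 * (L / 4 + 1)) ^ 3 < 2 ^ (L / 4)).le

/-- the choice of the parameters -/
theorem params : ∃ E0 : ℕ, ∀ E : ℕ, E0 ≤ E → ∃ m : ℕ, 1 ≤ m ∧
    2 ^ (Nat.log 2 E / 4) * m ≤ E / 16 ∧
    2 * (2 * Nat.log 2 E * (2 ^ (Nat.log 2 E / 4) * m)) ≤ E / 16 ∧
    (E / 16 / m + 1) ^ 3 ≤ E := by
  obtain ⟨L0, hL0⟩ := grow
  refine ⟨2 ^ (L0 + 4), fun E hE => ?_⟩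
  set L := Nat.log 2 E with hL
  have hE0 : E ≠ 0 := by
    have : 0 < 2 ^ (L0 + 4) := by positivity
    omega
  have hLL : L0 + 4 ≤ L := by
    rw [hL]
    exact Nat.le_log_of_pow_le (by norm_num) hE
  have h1 : 2 ^ L ≤ E := Nat.pow_log_le_self 2 hE0
  set k := L / 4 with hk
  have h2 : (68 * (k + 1)) ^ 3 ≤ 2 ^ k := hL0 L (by omega)
  have hk1 : 1 ≤ k := by omega
  have hkL : 4 * k ≤ L := by omega
  have hLk : L + 1 ≤ 4 * (k + 1) := by omega
  set q := 2 ^ k with hq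
  have hq4 : q ^ 4 ≤ E := by
    calc q ^ 4 = 2 ^ (4 * k) := by rw [hq, ← pow_mul, mul_comm]
      _ ≤ 2 ^ L := Nat.pow_le_pow_right (by norm_num) hkL
      _ ≤ E := h1
  have hq1 : 1 ≤ q := Nat.one_le_two_pow
  set D := 128 * (L + 1) * q with hD
  have h68 : 512 * (k + 1) ≤ (68 * (k + 1)) ^ 3 := by
    have h3 : 1 ≤ (68 * (k + 1)) ^ 2 := Nat.one_le_pow _ _ (by omega)
    calc 512 * (k + 1) ≤ (68 * (k + 1)) * (68 * (k + 1)) := by nlinarith only [hk1]
      _ ≤ (68 * (k + 1)) * (68 * (k + 1)) * (68 * (k + 1)) :=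
          Nat.le_mul_of_pos_right _ (by omega)
      _ = (68 * (k + 1)) ^ 3 := by ring
  have hDq : D ≤ q ^ 2 := by
    have h3 : 128 * (L + 1) ≤ q := by
      calc 128 * (L + 1) ≤ 512 * (k + 1) := by omega
        _ ≤ q := h68.trans h2
    calc D = 128 * (L + 1) * q := rfl
      _ ≤ q * q := Nat.mul_le_mul_right _ h3
      _ = q ^ 2 := by ring
  have hDE : D ≤ E := hDq.trans (le_trans (Nat.pow_le_pow_right hq1 (by norm_num)) hq4)
  have hD0 : 0 < D := by positivity
  refine ⟨E / D, (Nat.one_le_div_iff hD0).2 hDE, ?_, ?_, ?_⟩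
  · have h3 : E / D * D ≤ E := Nat.div_mul_le_self _ _
    rw [Nat.le_div_iff_mul_le (by norm_num)]
    calc q * (E / D) * 16 ≤ q * (E / D) * (128 * (L + 1)) := Nat.mul_le_mul_left _ (by omega)
      _ = E / D * D := by rw [hD]; ring
      _ ≤ E := h3
  · have h3 : E / D * D ≤ E := Nat.div_mul_le_self _ _
    rw [Nat.le_div_iff_mul_le (by norm_num)]
    calc 2 * (2 * L * (q * (E / D))) * 16 = (q * (E / D)) * (64 * L) := by ring
      _ ≤ (q * (E / D)) * (128 * (L + 1)) := Nat.mul_le_mul_left _ (by omega)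
      _ = E / D * D := by rw [hD]; ring
      _ ≤ E := h3
  · set m := E / D with hm
    have hm1 : 1 ≤ m := (Nat.one_le_div_iff hD0).2 hDE
    have h3 : E < (m + 1) * D := by
      have := Nat.lt_div_mul_add (a := E) hD0
      rw [add_mul, one_mul]
      exact this
    have h4 : E < 2 * m * D := lt_of_lt_of_le h3 (Nat.mul_le_mul_right _ (by omega))
    have h5 : E / 16 / m ≤ 16 * (L + 1) * q := by
      rw [Nat.div_div_eq_div_mul, ← Nat.lt_succ_iff, Nat.div_lt_iff_lt_mul (by positivity)]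
      calc E < 2 * m * D := h4
        _ = 16 * (L + 1) * q * (16 * m) := by rw [hD]; ring
        _ ≤ (16 * (L + 1) * q).succ * (16 * m) := Nat.mul_le_mul_right _ (Nat.le_succ _)
    have h6 : E / 16 / m + 1 ≤ 68 * (k + 1) * q := by
      calc E / 16 / m + 1 ≤ 16 * (L + 1) * q + 1 := by omega
        _ ≤ 17 * (L + 1) * q := by nlinarith only [hD, hD0, Nat.mul_le_mul (Nat.succ_le_succ (Nat.zero_le L)) hq1]
        _ ≤ 68 * (k + 1) * q := Nat.mul_le_mul_right _ (by omega)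
    calc (E / 16 / m + 1) ^ 3 ≤ (68 * (k + 1) * q) ^ 3 := Nat.pow_le_pow_left h6 3
      _ = (68 * (k + 1)) ^ 3 * q ^ 3 := by ring
      _ ≤ q * q ^ 3 := Nat.mul_le_mul_right _ h2
      _ = q ^ 4 := by ring
      _ ≤ E := hq4

/-- the inequality at a single integer -/
theorem point (h1 : StmtPW) (m q M z y n : ℕ) (P : Finset ℕ) (hM : 2 ≤ M) (hm : 1 ≤ m)
    (hz : 2 ≤ z) (hV : VV z m (q * m) ≠ 0) (hqm : q * m ≤ M) (hzn : z ^ M ≤ n) :
    WB m q M z y P n ^ 2 * ((P.filter (fun h => (n + h).Prime)).card : ℝ) ≤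
      ∑ h : P, GB m q M z y P h n ^ 2 := by
  have h7 : WB m q M z y P n ^ 2 * ((P.filter (fun h => (n + h).Prime)).card : ℝ) =
      ∑ h : P, if (n + (h : ℕ)).Prime then WB m q M z y P n ^ 2 else 0 := by
    rw [Finset.sum_coe_sort P (fun h => if (n + h).Prime then WB m q M z y P n ^ 2 else 0),
      ← Finset.sum_filter, Finset.sum_const, nsmul_eq_mul, mul_comm]
  rw [h7]
  refine Finset.sum_le_sum fun h _ => ?_
  split_ifs with hpr
  · rw [h1 m q M z y P h n hM hm hz hV hqm hpr hzn]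
  · exact sq_nonneg _

/-- eventual inequalities for the size of `E` -/
theorem sizes (c cS cG : ℝ) (hS : 0 < cS) (hG : 0 < cG) : ∃ E0 : ℕ, ∀ E : ℕ, E0 ≤ E →
    1 ≤ Real.log E ∧ 16 * Real.log E ≤ E ∧ c * (E * Real.log E) * (4 / (E : ℝ) ^ 2) ≤ 1 / 8 ∧
      c * (E * Real.log E) * Real.exp (-(cG * E)) ≤ 1 / 8 ∧ Real.exp (-(cS * E)) ≤ 1 / 2 := by
  have hN : Tendsto (fun E : ℕ => (E : ℝ)) atTop atTop := tendsto_natCast_atTop_atTop
  have e1 : ∀ᶠ u : ℝ in atTop, 1 ≤ Real.log u := Real.tendsto_log_atTop.eventually_ge_atTop 1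
  have e2 : ∀ᶠ u : ℝ in atTop, ‖Real.log u‖ ≤ 1 / (16 + 32 * |c|) * ‖id u‖ :=
    (Asymptotics.isLittleO_iff.1 Real.isLittleO_log_id_atTop) (by positivity)
  have e3 : Tendsto (fun u : ℝ => |c| * (u ^ 2 * Real.exp (-(cG * u)))) atTop (𝓝 (|c| * 0)) := by
    refine Tendsto.const_mul _ ?_
    have h := Real.tendsto_pow_mul_exp_neg_atTop_nhds_zero 2
    have h2 : Tendsto (fun u : ℝ => (1 / cG ^ 2) * ((cG * u) ^ 2 * Real.exp (-(cG * u)))) atTop
        (𝓝 ((1 / cG ^ 2) * 0)) := by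
      refine Tendsto.const_mul _ ?_
      exact h.comp (Tendsto.const_mul_atTop hG tendsto_id)
    rw [mul_zero] at h2
    refine h2.congr fun u => ?_
    field_simp
  rw [mul_zero] at e3
  have e4 : ∀ᶠ u : ℝ in atTop, |c| * (u ^ 2 * Real.exp (-(cG * u))) < 1 / 8 :=
    e3.eventually (gt_mem_nhds (by positivity))
  have e5 : Tendsto (fun u : ℝ => Real.exp (-(cS * u))) atTop (𝓝 0) := by
    refine Real.tendsto_exp_atBot.comp ?_
    exact tendsto_neg_atTop_atBot.comp (Tendsto.const_mul_atTop hS tendsto_id)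
  have e6 : ∀ᶠ u : ℝ in atTop, Real.exp (-(cS * u)) < 1 / 2 :=
    e5.eventually (gt_mem_nhds (by positivity))
  obtain ⟨E0, hE0⟩ := eventually_atTop.1 (hN.eventually (e1.and (e2.and (e4.and (e6.and
    (eventually_ge_atTop 1))))))
  refine ⟨E0, fun E hE => ?_⟩
  obtain ⟨a1, a2, a3, a4, a5⟩ := hE0 E hE
  rw [id, Real.norm_of_nonneg (by linarith only [a1] : (0 : ℝ) ≤ Real.log (E : ℝ)),
    Real.norm_of_nonneg (by linarith only [a5] : (0 : ℝ) ≤ (E : ℝ))] at a2
  have hc0 := abs_nonneg c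
  have hcc := le_abs_self c
  have hEpos : (0 : ℝ) < E := by linarith only [a5]
  have a6 : Real.log E * (16 + 32 * |c|) ≤ E := by
    rw [one_div, inv_mul_eq_div, le_div_iff₀ (by positivity)] at a2
    exact a2
  have hlog0 : 0 ≤ Real.log (E : ℝ) := by linarith only [a1]
  have h32 : 32 * (|c| * Real.log E) ≤ E := by nlinarith only [a1, a6]
  refine ⟨a1, by nlinarith only [hc0, a6, a1], ?_, ?_, a4.le⟩
  · have : c * (E * Real.log E) * (4 / (E : ℝ) ^ 2) = 4 * (c * Real.log E) / E := by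
      field_simp
    rw [this, div_le_iff₀ hEpos]
    have : c * Real.log E ≤ |c| * Real.log E := mul_le_mul_of_nonneg_right hcc hlog0
    linarith only [a1, a6, this]
  · have h8 : Real.log E ≤ E := by nlinarith only [a5, hc0, a6, a1]
    have h9 : c * (E * Real.log E) ≤ |c| * (E : ℝ) ^ 2 :=
      calc c * (E * Real.log E) ≤ |c| * (E * Real.log E) :=
            mul_le_mul_of_nonneg_right hcc (by positivity)
        _ ≤ |c| * (E : ℝ) ^ 2 := by
            refine mul_le_mul_of_nonneg_left ?_ hc0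
            nlinarith only [h8]
    calc c * (E * Real.log E) * Real.exp (-(cG * E))
        ≤ |c| * (E : ℝ) ^ 2 * Real.exp (-(cG * E)) :=
          mul_le_mul_of_nonneg_right h9 (Real.exp_pos _).le
      _ = |c| * ((E : ℝ) ^ 2 * Real.exp (-(cG * E))) := by ring
      _ ≤ 1 / 8 := a3.le

theorem ki (hVL : StmtVL) (hS1 : StmtS1) (hPW : StmtPW) (hGT : StmtGT) (hRA : StmtRA) :
    StmtKI := by
  obtain ⟨c1, hc1, hVL⟩ := hVL
  obtain ⟨cS, hcS, ES, hS1⟩ := hS1
  obtain ⟨cG, hcG, EG, hGT⟩ := hGT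
  obtain ⟨E1, hE1⟩ := params
  set c : ℝ := min 1 (c1 / 2000) with hc
  have hc0 : 0 < c := lt_min one_pos (by positivity)
  have hcl : c ≤ c1 / 2000 := min_le_right _ _
  have hcone : c ≤ 1 := min_le_left _ _
  obtain ⟨E2, hE2⟩ := sizes c cS cG hcS hcG
  obtain ⟨L3, hL3⟩ := exists_nat_gt (max 100 (32 / c1))
  refine ⟨c, hc0, max (max (max ES EG) (max E1 E2)) (2 ^ L3 + 300), ?_⟩
  intro E z x y hE hSr b hb P hP hPo
  have hEES : ES ≤ E :=
    le_trans (le_trans (le_trans (le_max_left _ _) (le_max_left _ _)) (le_max_left _ _)) hE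
  have hEEG : EG ≤ E :=
    le_trans (le_trans (le_trans (le_max_right _ _) (le_max_left _ _)) (le_max_left _ _)) hE
  have hEE1 : E1 ≤ E :=
    le_trans (le_trans (le_trans (le_max_left _ _) (le_max_right _ _)) (le_max_left _ _)) hE
  have hEE2 : E2 ≤ E :=
    le_trans (le_trans (le_trans (le_max_right _ _) (le_max_right _ _)) (le_max_left _ _)) hE
  have hEL : 2 ^ L3 + 300 ≤ E := le_trans (le_max_right _ _) hE
  have hE300 : 300 ≤ E := le_trans (Nat.le_add_left _ _) hEL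
  have hEL3 : 2 ^ L3 ≤ E := le_trans (Nat.le_add_right _ _) hEL
  clear_value c
  obtain ⟨m, hm1, hqm, hjqm, hK⟩ := hE1 E hEE1
  obtain ⟨s1, s2, s3, s4, s5⟩ := hE2 E hEE2
  set L := Nat.log 2 E with hL
  set q := 2 ^ (L / 4) with hq
  have hE0 : E ≠ 0 := by omega
  have hEr : (300 : ℝ) ≤ E := by exact_mod_cast hE300
  have hEpos : (0 : ℝ) < E := by linarith only [hEr]
  have hLL : L3 ≤ L := Nat.le_log_of_pow_le (by norm_num) hEL3
  have hLr : (L3 : ℝ) ≤ L := by exact_mod_cast hLL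
  have hL100 : (100 : ℝ) ≤ L := le_trans (le_of_lt (lt_of_le_of_lt (le_max_left _ _) hL3)) hLr
  have hLc : 32 / c1 ≤ L := le_trans (le_of_lt (lt_of_le_of_lt (le_max_right _ _) hL3)) hLr
  have hLc' : 32 ≤ c1 * L := by
    rw [div_le_iff₀ hc1] at hLc
    linarith only [hLc]
  have hpow1 : 2 ^ L ≤ E := Nat.pow_log_le_self 2 hE0
  have hpow2 : E < 2 ^ (L + 1) := Nat.lt_pow_succ_log_self (by norm_num) E
  have hlogE : Real.log E ≤ L + 1 := by
    have h1 : (E : ℝ) ≤ 2 ^ (L + 1) := by exact_mod_cast hpow2.le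
    have h2 : Real.log E ≤ Real.log ((2 : ℝ) ^ (L + 1)) := Real.log_le_log hEpos h1
    rw [Real.log_pow] at h2
    have h3 := Real.log_two_lt_d9
    have h4 : (0 : ℝ) ≤ ((L + 1 : ℕ) : ℝ) := Nat.cast_nonneg _
    push_cast at h2 h4
    nlinarith only [hL100, h3, h2]
  -- the size of `z`
  obtain ⟨hz1, hz2, hx1, hx2, hy1, hy2⟩ := hSr
  have hz2' : 2 ≤ z := by
    have h1 : (2 : ℝ) ≤ z := by
      have := Real.add_one_le_exp (E : ℝ)
      linarith only [hEr, hz1, this]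
    exact_mod_cast h1
  -- the size of `V`
  set V := VV z m (q * m) with hV
  have hVlow : c1 * L / 8 ≤ V := by
    have h1 := hVL (L / 4) m z hm1 hz2'
    have h2 : ((L : ℝ) - 3) / 4 ≤ ((L / 4 : ℕ) : ℝ) := by
      have : L ≤ 4 * (L / 4) + 3 := by omega
      have h3 : (L : ℝ) ≤ 4 * ((L / 4 : ℕ) : ℝ) + 3 := by exact_mod_cast this
      linarith only [h3]
    have h3 := mul_le_mul_of_nonneg_left h2 hc1.le
    have h4 : c1 * L / 8 ≤ c1 * (((L : ℝ) - 3) / 4) - 1 := by nlinarith only [hc0, hcl, hLc', hc1, hL100]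
    exact h4.trans (le_trans (by linarith only [h3]) h1)
  have hV1 : 1 ≤ V := by linarith only [hLc', hVlow]
  have hV0 : V ≠ 0 := by linarith only [hLc', hVlow]
  have hVpos : 0 < V := by linarith only [hLc', hVlow]
  have hVlog : c1 / 16 * Real.log E ≤ V := by
    refine le_trans ?_ hVlow
    have : Real.log E ≤ 2 * L := by linarith only [hL100, hlogE]
    nlinarith only [hc0, hcl, hc1, hL100, hlogE]
  -- the hypotheses on `P`
  have hom := om_nonneg y z
  have hPo2 : (P.card : ℝ) * om y z ≤ (E : ℝ) ^ 2 := by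
    refine hPo.trans ?_
    have h1 : Real.log E ≤ E := by linarith only [s2, hEr]
    calc c * (E * Real.log E) ≤ 1 * (E * E) := by
          apply mul_le_mul hcone _ (by positivity) (by norm_num)
          exact mul_le_mul_of_nonneg_left h1 hEpos.le
      _ = (E : ℝ) ^ 2 := by ring
  have hPy : P.card ≤ y := by
    have := Finset.card_le_card hP
    rwa [Nat.card_Icc, Nat.add_sub_cancel] at this
  have hSr : Sr E z x y := ⟨hz1, hz2, hx1, hx2, hy1, hy2⟩
  have hM2 : 2 ≤ E / 16 := by omega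
  have hMr : (E : ℝ) / 17 ≤ ((E / 16 : ℕ) : ℝ) := by
    have : E ≤ 17 * (E / 16) := by clear hjqm hK; omega
    have h3 : (E : ℝ) ≤ 17 * ((E / 16 : ℕ) : ℝ) := by exact_mod_cast this
    linarith only [h3]
  obtain ⟨hD1, hS⟩ := hS1 E z x y hEES hSr b hb m q hm1 hqm hV1 hK P hP hPo2
  have hG := hGT E z x y hEEG hSr b hb m q hm1 hqm hV1 hK P hP hPo2
  set D := DB m q (E / 16) z y P with hD
  -- the tail
  have htail := tail hRA m q (E / 16) z y (2 * L) P hPy hV0 hjqm (by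
    refine le_trans ?_ hMr
    rw [← hV]
    have h1 : (P.card : ℝ) * om y z * (1 / V) ≤ c * (E * Real.log E) * (1 / V) :=
      mul_le_mul_of_nonneg_right hPo (by positivity)
    have h2 : c * (E * Real.log E) * (1 / V) ≤ E / 100 := by
      rw [mul_one_div, div_le_iff₀ hVpos]
      have h3 : c * Real.log E ≤ V / 100 := by
        calc c * Real.log E ≤ c1 / 2000 * Real.log E :=
              mul_le_mul_of_nonneg_right hcl (by linarith only [s1])
          _ ≤ V / 100 := by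
              have : 0 ≤ c1 * Real.log E := by positivity
              linarith only [hLc', hVlow, hVlog]
      calc c * (E * Real.log E) = E * (c * Real.log E) := by ring
        _ ≤ E * (V / 100) := mul_le_mul_of_nonneg_left h3 hEpos.le
        _ = E / 100 * V := by ring
    linarith only [hEr, h1, h2])
  rw [← hD] at htail
  set Sig := ∑ r ∈ (TB m q (E / 16) z P).filter (fun r => E / 16 < cost z r + q * m),
    wb m q y z r with hSig
  have hpow : (E : ℝ) ^ 2 / 4 ≤ 2 ^ (2 * L) := by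
    have h1 : (E : ℝ) ≤ 2 ^ (L + 1) := by exact_mod_cast hpow2.le
    have h2 : (E : ℝ) / 2 ≤ 2 ^ L := by
      rw [pow_succ] at h1
      linarith only [h1]
    calc (E : ℝ) ^ 2 / 4 = (E / 2) ^ 2 := by ring
      _ ≤ (2 ^ L) ^ 2 := pow_le_pow_left₀ (by positivity) h2 2
      _ = 2 ^ (2 * L) := by rw [← pow_mul, mul_comm]
  have hSigD : Sig ≤ 4 / (E : ℝ) ^ 2 * D := by
    have hD0 : 0 ≤ D := by linarith only [hD1]
    by_cases hs : Sig ≤ 0
    · exact hs.trans (by positivity)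
    · push Not at hs
      have h1 : (E : ℝ) ^ 2 / 4 * Sig ≤ D :=
        le_trans (mul_le_mul_of_nonneg_right hpow hs.le) htail
      have hE2 : (0 : ℝ) < (E : ℝ) ^ 2 := by positivity
      rw [div_mul_eq_mul_div, le_div_iff₀ hE2]
      linarith only [h1]
  -- contradiction
  by_contra hcon
  push Not at hcon
  have hXX : 0 < XX x := by
    unfold XX
    have hx0 : 0 < x := lt_of_lt_of_le (pow_pos (by omega) E) hx1
    have h1 : 0 < x - x / 2 := by omega
    have h2 : (0 : ℝ) < ((x - x / 2 : ℕ) : ℝ) := by exact_mod_cast h1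
    have h3 : (0 : ℝ) < QQ x := by exact_mod_cast primorial_pos _
    positivity
  have hA : ∑ n ∈ NN x b, WB m q (E / 16) z y P n ^ 2 ≤
      ∑ n ∈ NN x b, ∑ h : P, GB m q (E / 16) z y P h n ^ 2 := by
    refine Finset.sum_le_sum fun n hn => ?_
    have hn1 : x / 2 < n := (Finset.mem_Ioc.mp (Finset.mem_filter.mp hn).1).1
    have hzn : z ^ (E / 16) ≤ n := by
      have h6 : z ^ (E / 16) * 2 ≤ x := by
        refine le_trans ?_ hx1
        calc z ^ (E / 16) * 2 ≤ z ^ (E / 16) * z := Nat.mul_le_mul_left _ hz2'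
          _ = z ^ (E / 16 + 1) := (pow_succ _ _).symm
          _ ≤ z ^ E := Nat.pow_le_pow_right (by omega) (by omega)
      omega
    refine le_trans ?_ (point hPW m q (E / 16) z y n P hM2 hm1 hz2' hV0 hqm hzn)
    obtain ⟨h, hh, hpr⟩ := hcon n hn
    have h1 : 1 ≤ (P.filter (fun h => (n + h).Prime)).card :=
      Finset.card_pos.2 ⟨h, Finset.mem_filter.2 ⟨hh, hpr⟩⟩
    have h2 : (1 : ℝ) ≤ ((P.filter (fun h => (n + h).Prime)).card : ℝ) := by exact_mod_cast h1
    exact le_mul_of_one_le_right (sq_nonneg _) h2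
  rw [Finset.sum_comm] at hA
  have hB := hA.trans (Finset.sum_le_sum fun h _ => hG h)
  rw [Finset.sum_const, nsmul_eq_mul, Finset.card_univ, Fintype.card_coe] at hB
  have hlow : XX x * D / 2 ≤ ∑ n ∈ NN x b, WB m q (E / 16) z y P n ^ 2 := by
    have h1 := (abs_le.1 hS).1
    have h2 : Real.exp (-(cS * E)) * XX x ≤ 1 / 2 * (XX x * D) := by
      calc Real.exp (-(cS * E)) * XX x ≤ 1 / 2 * XX x :=
            mul_le_mul_of_nonneg_right s5 hXX.le
        _ ≤ 1 / 2 * (XX x * D) := by nlinarith only [hD1, hXX]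
    linarith only [h1, h2]
  have hup : (P.card : ℝ) * (XX x * om y z * (Sig + Real.exp (-(cG * E)))) ≤ XX x * D / 4 := by
    have hD0 : 0 ≤ D := by linarith only [hD1]
    have hSig0 : Sig + Real.exp (-(cG * E)) ≤
        4 / (E : ℝ) ^ 2 * D + Real.exp (-(cG * E)) * D := by
      have h1 : Real.exp (-(cG * E)) ≤ Real.exp (-(cG * E)) * D :=
        le_mul_of_one_le_right (Real.exp_pos _).le hD1
      linarith only [hSigD, h1]
    have hPom : 0 ≤ (P.card : ℝ) * om y z := mul_nonneg (Nat.cast_nonneg _) hom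
    calc (P.card : ℝ) * (XX x * om y z * (Sig + Real.exp (-(cG * E))))
        = XX x * ((P.card : ℝ) * om y z * (Sig + Real.exp (-(cG * E)))) := by ring
      _ ≤ XX x * ((P.card : ℝ) * om y z *
            (4 / (E : ℝ) ^ 2 * D + Real.exp (-(cG * E)) * D)) := by gcongr
      _ ≤ XX x * (c * (E * Real.log E) *
            (4 / (E : ℝ) ^ 2 * D + Real.exp (-(cG * E)) * D)) := by
          have : 0 ≤ 4 / (E : ℝ) ^ 2 * D + Real.exp (-(cG * E)) * D := by positivity
          gcongr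
      _ = XX x * D * (c * (E * Real.log E) * (4 / (E : ℝ) ^ 2) +
            c * (E * Real.log E) * Real.exp (-(cG * E))) := by ring
      _ ≤ XX x * D * (1 / 8 + 1 / 8) :=
          mul_le_mul_of_nonneg_left (add_le_add s3 s4) (by positivity)
      _ = XX x * D / 4 := by ring
  have h9 := hlow.trans (hB.trans hup)
  have h10 : 0 < XX x * D := mul_pos hXX (by linarith only [hD1])
  linarith only [hB, hlow, hup, h10]

end Pool.Agent.Helper88.RR
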