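import Pool.Agent.Helper88.RR.Goals
import Pool.Agent.Helper24.PP.MA
import Pool.Agent.Helper51.PP.RH

/-! # The normalisation is at least a multiple of `log q` -/

set_option autoImplicit false

open Finset Filter Topology

open scoped Classical

namespace Pool.Agent.Helper88.RR

open Pool.Agent.Helper88.PP (pr Rg om Sf SS uu vv ee LA VV QQ NN XX cost nc dd)
open Pool.Agent.Helper51.PP (VV_split VV_nonneg VV_lower SS_split)

theorem vl : StmtVL := by
  obtain ⟨c, C, hc, hC, hMA⟩ := Pool.Agent.Helper24.PP.ma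
  obtain ⟨r0, hr0⟩ := pow_unbounded_of_one_lt (2 * C / c) (show (1 : ℝ) < 2 by norm_num)
  set B : ℕ := 2 ^ (r0 + 1) with hB
  have hBr : (B : ℝ) = 2 ^ (r0 + 1) := by rw [hB]; push_cast; rfl
  have hB1 : 2 * C / c ≤ (B : ℝ) := by
    rw [hBr, pow_succ]
    have : (0 : ℝ) < 2 ^ r0 := by positivity
    linarith
  have hB2 : 2 ≤ B := by
    rw [hB, pow_succ]
    have : 1 ≤ 2 ^ r0 := Nat.one_le_two_pow
    omega
  have hCB : C ≤ c / 2 * B := by
    rw [div_le_iff₀ hc] at hB1
    linarith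
  have key : ∀ n m z : ℕ, 1 ≤ m → 2 ≤ z → n * (c / 2) ≤ VV z m (B ^ n * m) := by
    intro n m z hm hz
    induction n with
    | zero =>
      have := VV_nonneg z m (B ^ 0 * m)
      simpa only [Nat.cast_zero, zero_mul] using this
    | succ n ih =>
      have hm0 : (0 : ℝ) < m := by exact_mod_cast hm
      have hBn : 1 ≤ B ^ n := Nat.one_le_pow _ _ (by omega)
      have hBn' : B ^ n ≤ B ^ (n + 1) := Nat.pow_le_pow_right (by omega) (Nat.le_succ n)
      have ha : 1 ≤ B ^ n * m := Nat.one_le_iff_ne_zero.mpr (by positivity)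
      have hd : 1 ≤ B ^ (n + 1) * m := Nat.one_le_iff_ne_zero.mpr (by positivity)
      have hab : m ≤ B ^ n * m := Nat.le_mul_of_pos_left m (by positivity)
      have hbd : B ^ n * m ≤ B ^ (n + 1) * m := Nat.mul_le_mul_right m hBn'
      rw [VV_split (by omega) hab hbd]
      have h1 := (hMA z (B ^ (n + 1) * m) hz hd).1
      have h2 := (hMA z (B ^ n * m) hz ha).2.1
      rw [SS_split (by omega) hbd (fun s => 1 / (Nat.totient s : ℝ))] at h1
      have h3 := VV_lower (a := B ^ n * m) hz hd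
      have hdpos : (0 : ℝ) < ((B ^ (n + 1) * m : ℕ) : ℝ) := by exact_mod_cast hd
      rw [div_le_iff₀ hdpos] at h3
      have h4 : c / 2 * ((B ^ (n + 1) * m : ℕ) : ℝ) ≤
          VV z (B ^ n * m) (B ^ (n + 1) * m) * ((B ^ (n + 1) * m : ℕ) : ℝ) := by
        refine le_trans ?_ h3
        have h5 : C * ((B ^ n * m : ℕ) : ℝ) ≤ c / 2 * ((B ^ (n + 1) * m : ℕ) : ℝ) := by
          calc C * ((B ^ n * m : ℕ) : ℝ) ≤ (c / 2 * B) * ((B ^ n * m : ℕ) : ℝ) :=
                mul_le_mul_of_nonneg_right hCB (by positivity)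
            _ = _ := by push_cast; ring
        linarith
      have h6 := le_of_mul_le_mul_right h4 hdpos
      push_cast
      linarith
  set c1 : ℝ := min 1 (c / 2) with hc1
  have hc10 : 0 < c1 := lt_min one_pos (by positivity)
  refine ⟨c1 / (r0 + 1), by positivity, fun j m z hm hz => ?_⟩
  set n := j / (r0 + 1) with hn
  have hr0pos : (0 : ℝ) < (r0 : ℝ) + 1 := by positivity
  have h1 : j < (r0 + 1) * (n + 1) := Nat.lt_mul_div_succ j (by omega)
  have h2 : (j : ℝ) ≤ (r0 + 1) * (n + 1) := by exact_mod_cast h1.le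
  have h3 : B ^ n ≤ 2 ^ j := by
    rw [hB, ← pow_mul]
    exact Nat.pow_le_pow_right (by norm_num) (Nat.mul_div_le j (r0 + 1))
  have hBn : 1 ≤ B ^ n := Nat.one_le_pow _ _ (by omega)
  have h4 : VV z m (B ^ n * m) ≤ VV z m (2 ^ j * m) := by
    rw [VV_split (by omega : 1 ≤ z) (Nat.le_mul_of_pos_left m (by positivity) : m ≤ B ^ n * m)
      (Nat.mul_le_mul_right m h3)]
    have := VV_nonneg z (B ^ n * m) (2 ^ j * m)
    linarith
  have h5 := key n m z hm hz
  have h6 : c1 * n ≤ n * (c / 2) := by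
    rw [mul_comm]
    exact mul_le_mul_of_nonneg_left (min_le_right _ _) (Nat.cast_nonneg _)
  have h7 : c1 / (r0 + 1) * j ≤ c1 * (n + 1) := by
    rw [div_mul_eq_mul_div, div_le_iff₀ hr0pos]
    calc c1 * j ≤ c1 * ((r0 + 1) * (n + 1)) := mul_le_mul_of_nonneg_left h2 hc10.le
      _ = c1 * (n + 1) * (r0 + 1) := by ring
  have h8 : c1 ≤ 1 := min_le_left _ _
  linarith

end Pool.Agent.Helper88.RR
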