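import Pool.Agent.Helper88.RR.Goals
import Pool.Agent.Helper88.PP.MoA
import Pool.Agent.Helper37.PP.HM

/-! # All primes at the points of `P` can be avoided: in terms of `x` -/

set_option autoImplicit false

open Finset Filter Topology

open scoped Classical

namespace Pool.Agent.Helper88.RR

open Pool.Agent.Helper88.PP (pr Rg om Sf SS uu vv ee LA VV QQ NN XX cost nc dd)

/-- eventual inequalities for the size of `E` -/
theorem sizesX : ∃ E0 : ℕ, ∀ E : ℕ, E0 ≤ E →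
    9 ≤ E ∧ 4 * (E : ℝ) ^ 4 ≤ Real.exp E ∧ 3 ≤ Real.log E ∧ 2 ≤ Real.exp ((E : ℝ) / 3) := by
  have hN : Tendsto (fun E : ℕ => (E : ℝ)) atTop atTop := tendsto_natCast_atTop_atTop
  have e1 : ∀ᶠ u : ℝ in atTop, 3 ≤ Real.log u := Real.tendsto_log_atTop.eventually_ge_atTop 3
  have e2 : ∀ᶠ u : ℝ in atTop, u ^ 4 * Real.exp (-u) < 1 / 4 :=
    (Real.tendsto_pow_mul_exp_neg_atTop_nhds_zero 4).eventually (gt_mem_nhds (by positivity))
  obtain ⟨E0, hE0⟩ := eventually_atTop.1 (hN.eventually (e1.and (e2.and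
    (eventually_ge_atTop 9))))
  refine ⟨E0, fun E hE => ?_⟩
  obtain ⟨a1, a2, a3⟩ := hE0 E hE
  refine ⟨by exact_mod_cast a3, ?_, a1, ?_⟩
  · rw [Real.exp_neg, ← div_eq_mul_inv, div_lt_iff₀ (Real.exp_pos _)] at a2
    linarith
  · have := Real.add_one_le_exp ((E : ℝ) / 3)
    linarith

/-- the scale for a given `x` -/
theorem scale : ∃ E0 : ℕ, ∀ E x : ℕ, E0 ≤ E → (E : ℝ) ^ 2 ≤ 3 / 4 * Real.log x →
    3 / 4 * Real.log x < ((E : ℝ) + 1) ^ 2 → ∃ z : ℕ, Real.exp E ≤ z ∧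
      (z : ℝ) ≤ Real.exp (2 * E) ∧ z ^ E ≤ x ∧ x < (z + 1) ^ E ∧
      Real.log x ≤ 2 * (E : ℝ) ^ 2 ∧ Real.log x ^ 2 ≤ z ∧
      Real.log (Real.log x) ≤ 3 * Real.log E ∧ (2 : ℝ) ≤ Real.log x := by
  obtain ⟨E0, hE0⟩ := sizesX
  refine ⟨E0, fun E x hE h1 h2 => ?_⟩
  obtain ⟨s1, s2, s3, s4⟩ := hE0 E hE
  set l := Real.log x with hl
  have hE9 : (9 : ℝ) ≤ E := by exact_mod_cast s1
  have hEpos : (0 : ℝ) < E := by linarith
  have hl2 : 2 ≤ l := by nlinarith
  have hx0 : (0 : ℝ) < x := by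
    by_contra hcon
    have h3 : (x : ℝ) = 0 := le_antisymm (not_lt.1 hcon) (Nat.cast_nonneg _)
    rw [hl, h3, Real.log_zero] at hl2
    linarith
  have hx1 : 1 ≤ x := by exact_mod_cast (Nat.cast_pos.1 hx0)
  obtain ⟨z, hz1, hz2, hz3⟩ := Pool.Agent.Helper88.PP.root_exists E 1 x (by omega)
    (by rw [one_pow]; exact hx1)
  have hlE : l ≤ 2 * (E : ℝ) ^ 2 := by nlinarith
  have hzpos : (0 : ℝ) < z := by exact_mod_cast (by omega : 0 < z)
  have hup : (z : ℝ) ≤ Real.exp (2 * E) := by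
    rw [← Real.log_le_iff_le_exp hzpos]
    have h3 : (E : ℝ) * Real.log z ≤ l := by
      rw [← Real.log_pow]
      exact Real.log_le_log (by positivity) (by exact_mod_cast hz2)
    have h4 : (E : ℝ) * Real.log z ≤ E * (2 * E) := by nlinarith
    exact le_of_mul_le_mul_left h4 hEpos
  have hlow : Real.exp E ≤ z := by
    have h3 : l ≤ E * Real.log ((z : ℝ) + 1) := by
      rw [← Real.log_pow]
      exact Real.log_le_log hx0 (by exact_mod_cast hz3.le)
    have h4 : (E : ℝ) * (4 / 3 * E) ≤ E * Real.log ((z : ℝ) + 1) := by nlinarith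
    have h5 : 4 / 3 * (E : ℝ) ≤ Real.log ((z : ℝ) + 1) := le_of_mul_le_mul_left h4 hEpos
    rw [Real.le_log_iff_exp_le (by linarith)] at h5
    have h6 : Real.exp (4 / 3 * (E : ℝ)) = Real.exp E * Real.exp ((E : ℝ) / 3) := by
      rw [← Real.exp_add]
      congr 1
      ring
    rw [h6] at h5
    have h7 : (1 : ℝ) ≤ Real.exp E := Real.one_le_exp hEpos.le
    nlinarith
  refine ⟨z, hlow, hup, hz2, hz3, hlE, ?_, ?_, hl2⟩
  · refine le_trans ?_ (s2.trans hlow)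
    calc l ^ 2 ≤ (2 * (E : ℝ) ^ 2) ^ 2 := pow_le_pow_left₀ (by linarith) hlE 2
      _ = 4 * (E : ℝ) ^ 4 := by ring
  · calc Real.log l ≤ Real.log (2 * (E : ℝ) ^ 2) := Real.log_le_log (by linarith) hlE
      _ = Real.log 2 + 2 * Real.log E := by
          rw [Real.log_mul (by norm_num) (by positivity), Real.log_pow]
          norm_num
      _ ≤ 3 * Real.log E := by
          have := Real.log_two_lt_d9
          linarith

theorem kx (h : StmtKI) : StmtKX := by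
  obtain ⟨c, hc, E0, hKI⟩ := h
  obtain ⟨C, hC, hmp⟩ := Pool.Agent.Helper37.PP.mp
  obtain ⟨E1, hE1⟩ := scale
  have hlog : Tendsto (fun x : ℕ => Real.log (x : ℝ)) atTop atTop :=
    Real.tendsto_log_atTop.comp tendsto_natCast_atTop_atTop
  obtain ⟨x0, hx0⟩ := eventually_atTop.1 (hlog.eventually_ge_atTop
    (4 / 3 * ((max E0 E1 : ℕ) : ℝ) ^ 2))
  refine ⟨c / (12 * C), by positivity, x0, ?_⟩
  intro x y hx hy1 hy2 b hb P hP hPc
  set l := Real.log x with hl
  have hlx := hx0 x hx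
  have hl0 : 0 ≤ 3 / 4 * l := by
    have : (0 : ℝ) ≤ 4 / 3 * ((max E0 E1 : ℕ) : ℝ) ^ 2 := by positivity
    linarith
  set E := ⌊Real.sqrt (3 / 4 * l)⌋₊ with hE
  have hEE : max E0 E1 ≤ E := by
    rw [hE]
    apply Nat.le_floor
    apply Real.le_sqrt_of_sq_le
    linarith
  have hEa : (E : ℝ) ^ 2 ≤ 3 / 4 * l := by
    have h1 : (E : ℝ) ≤ Real.sqrt (3 / 4 * l) := Nat.floor_le (Real.sqrt_nonneg _)
    calc (E : ℝ) ^ 2 ≤ Real.sqrt (3 / 4 * l) ^ 2 := pow_le_pow_left₀ (Nat.cast_nonneg _) h1 2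
      _ = 3 / 4 * l := Real.sq_sqrt hl0
  have hEb : 3 / 4 * l < ((E : ℝ) + 1) ^ 2 := by
    have h1 : Real.sqrt (3 / 4 * l) < (E : ℝ) + 1 := Nat.lt_floor_add_one _
    calc 3 / 4 * l = Real.sqrt (3 / 4 * l) ^ 2 := (Real.sq_sqrt hl0).symm
      _ < ((E : ℝ) + 1) ^ 2 := pow_lt_pow_left₀ h1 (Real.sqrt_nonneg _) (by norm_num)
  obtain ⟨z, z1, z2, z3, z4, z5, z6, z7, z8⟩ :=
    hE1 E x (le_trans (le_max_right _ _) hEE) hEa hEb
  refine hKI E z x y (le_trans (le_max_left _ _) hEE) ⟨z1, z2, z3, z4, hy1, hy2⟩ b hb P hP ?_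
  have hyz : y ≤ z := by
    have : (y : ℝ) ≤ z := hy2.trans z6
    exact_mod_cast this
  have hy2' : 2 ≤ y := by
    have : (2 : ℝ) ≤ y := z8.trans hy1
    exact_mod_cast this
  have hm := hmp y z hy2' hyz
  have hzpos : (0 : ℝ) < z := lt_of_lt_of_le (Real.exp_pos _) z1
  have hlogz : (E : ℝ) ≤ Real.log z := by
    rw [Real.le_log_iff_exp_le hzpos]
    exact z1
  have hEpos : (0 : ℝ) < E := by
    have h1 : l ≤ 2 * (E : ℝ) ^ 2 := z5
    by_contra hcon
    have h3 : (E : ℝ) = 0 := le_antisymm (not_lt.1 hcon) (Nat.cast_nonneg _)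
    rw [h3] at h1
    linarith
  have hypos : (0 : ℝ) < y := by linarith
  have hlogy : Real.log y ≤ 6 * Real.log E := by
    calc Real.log y ≤ Real.log (l ^ 2) := Real.log_le_log hypos hy2
      _ = 2 * Real.log l := by rw [Real.log_pow]; norm_num
      _ ≤ 6 * Real.log E := by linarith
  have hlogy0 : 0 ≤ Real.log y := Real.log_nonneg (by linarith)
  have hom : om y z ≤ C * (6 * Real.log E / E) := by
    refine hm.trans (mul_le_mul_of_nonneg_left ?_ hC.le)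
    apply div_le_div₀ (by linarith) hlogy hEpos hlogz
  have hom0 : 0 ≤ C * (6 * Real.log E / E) := le_trans (Pool.Agent.Helper88.PP.om_nonneg y z) hom
  calc (P.card : ℝ) * om y z ≤ (c / (12 * C) * l) * (C * (6 * Real.log E / E)) := by
        apply mul_le_mul hPc hom (Pool.Agent.Helper88.PP.om_nonneg y z)
        exact le_trans (Nat.cast_nonneg _) hPc
    _ ≤ (c / (12 * C) * (2 * (E : ℝ) ^ 2)) * (C * (6 * Real.log E / E)) := by
        apply mul_le_mul_of_nonneg_right _ hom0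
        exact mul_le_mul_of_nonneg_left z5 (by positivity)
    _ = c * (E * Real.log E) := by
        field_simp
        ring

end Pool.Agent.Helper88.RR
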