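import Pool.Agent.Helper88.RR.Goals
import Pool.Agent.Helper88.LG.FinA

/-! # Large gaps between primes: the conclusion -/

set_option autoImplicit false

open Finset Filter Topology

open scoped Classical

namespace Pool.Agent.Helper88.RR

open Pool.Agent.Helper88.PP (pr Rg om Sf SS uu vv ee LA VV QQ NN XX cost nc dd)
open Pool.Agent.Helper88.LG (idx gap_of_idx coprime_class)

/-- the sizes, for large `x` -/
theorem sizesF (c : ℝ) (hc : 0 < c) (hc1 : c ≤ 1 / 1000) : ∃ X : ℝ, ∀ x : ℝ, X ≤ x →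
    100 ≤ x ∧ Real.log x ≤ c * (Real.log x * Real.log (Real.log x) ^ 2 *
        Real.log (Real.log (Real.log (Real.log x))) / Real.log (Real.log (Real.log x)) ^ 2) ∧
      100 ≤ Real.log x ∧ 100 ≤ Real.log (Real.log x) ∧
      100 ≤ Real.log (Real.log (Real.log x)) ∧
      100 ≤ Real.log (Real.log (Real.log (Real.log x))) ∧
      Real.log (Real.log (Real.log (Real.log x))) ≤ Real.log (Real.log (Real.log x)) ∧
      16 * Real.log (Real.log x) ^ 2 ≤ Real.log x := by
  have t1 : Tendsto Real.log atTop atTop := Real.tendsto_log_atTop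
  have e1 : ∀ᶠ u : ℝ in atTop, 16 * u ^ 2 ≤ Real.exp u := by
    have h := (Real.tendsto_pow_mul_exp_neg_atTop_nhds_zero 2).eventually
      (gt_mem_nhds (show (0 : ℝ) < 1 / 16 by norm_num))
    filter_upwards [h] with u hu
    rw [Real.exp_neg, ← div_eq_mul_inv, div_lt_iff₀ (Real.exp_pos _)] at hu
    linarith
  have e2 : ∀ᶠ u : ℝ in atTop, u ^ 2 ≤ c * Real.exp u ^ 2 := by
    have h := (Real.tendsto_pow_mul_exp_neg_atTop_nhds_zero 2).eventually
      (gt_mem_nhds (show (0 : ℝ) < c by positivity))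
    filter_upwards [h, eventually_ge_atTop 0] with u hu hu0
    rw [Real.exp_neg, ← div_eq_mul_inv, div_lt_iff₀ (Real.exp_pos _)] at hu
    have h1 : 1 ≤ Real.exp u := Real.one_le_exp hu0
    have h2 : c * Real.exp u ≤ c * Real.exp u ^ 2 := by
      apply mul_le_mul_of_nonneg_left _ hc.le
      nlinarith
    linarith
  have e3 : ∀ᶠ u : ℝ in atTop, Real.log u ≤ u := by
    filter_upwards [eventually_ge_atTop 0] with u hu
    have := Real.log_le_self hu
    exact this
  have t2 := t1.comp t1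
  have t3 := t1.comp t2
  have t4 := t1.comp t3
  obtain ⟨X, hX⟩ := eventually_atTop.1 ((eventually_ge_atTop (100 : ℝ)).and
    ((t1.eventually_ge_atTop 100).and ((t2.eventually_ge_atTop 100).and
    ((t3.eventually_ge_atTop 100).and ((t4.eventually_ge_atTop 100).and
    ((t3.eventually e3).and ((t2.eventually e1).and (t3.eventually e2))))))))
  refine ⟨X, fun x hx => ?_⟩
  obtain ⟨a0, a1, a2, a3, a4, a5, a6, a7⟩ := hX x hx
  simp only [Function.comp] at a2 a3 a4 a5 a6 a7
  set l1 := Real.log x with h1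
  set l2 := Real.log l1 with h2
  set l3 := Real.log l2 with h3
  set l4 := Real.log l3 with h4
  have x2 : Real.exp l2 = l1 := Real.exp_log (by linarith)
  have x3 : Real.exp l3 = l2 := Real.exp_log (by linarith)
  rw [x2] at a6
  rw [x3] at a7
  refine ⟨a0, ?_, a1, a2, a3, a4, a5, a6⟩
  have hl3 : 0 < l3 ^ 2 := by positivity
  have h5 : l3 ^ 2 ≤ c * (l2 ^ 2 * l4) := by
    have : c * l2 ^ 2 * 1 ≤ c * l2 ^ 2 * l4 := by
      apply mul_le_mul_of_nonneg_left (by linarith) (by positivity)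
    linarith
  have h6 : c * (l1 * l2 ^ 2 * l4 / l3 ^ 2) = l1 * (c * (l2 ^ 2 * l4)) / l3 ^ 2 := by
    field_simp
  rw [h6, le_div_iff₀ hl3]
  exact mul_le_mul_of_nonneg_left h5 (by linarith)

/-- comparison of the iterated logarithms of `w` and `log x` -/
theorem logs {w : ℕ} {l1 l2 l3 l4 : ℝ} (h2 : l2 = Real.log l1) (h3 : l3 = Real.log l2)
    (h4 : l4 = Real.log l3) (hl1 : 100 ≤ l1) (hl2 : 100 ≤ l2) (hl3 : 100 ≤ l3) (hl4 : 100 ≤ l4)
    (hw1 : l1 / 40 ≤ w) (hw2 : (w : ℝ) ≤ l1) :
    l2 / 2 ≤ Real.log w ∧ Real.log (Real.log w) ≤ l3 ∧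
      l4 / 2 ≤ Real.log (Real.log (Real.log w)) ∧ 0 < Real.log (Real.log w) := by
  have hwpos : (0 : ℝ) < w := by linarith
  have hlog2 := Real.log_two_lt_d9
  have a1 : l2 / 2 ≤ Real.log w := by
    have h5 : Real.log (l1 / 40) ≤ Real.log w := Real.log_le_log (by linarith) hw1
    rw [Real.log_div (by linarith) (by norm_num), ← h2] at h5
    have h6 : Real.log 40 ≤ 6 := by
      have : Real.log 40 ≤ Real.log (2 ^ 6) := Real.log_le_log (by norm_num) (by norm_num)
      rw [Real.log_pow] at this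
      push_cast at this
      linarith
    linarith
  have a2 : Real.log w ≤ l2 := by
    rw [h2]
    exact Real.log_le_log hwpos hw2
  have a3 : Real.log (Real.log w) ≤ l3 := by
    rw [h3]
    exact Real.log_le_log (by linarith) a2
  have a4 : l3 / 2 ≤ Real.log (Real.log w) := by
    have h5 : Real.log (l2 / 2) ≤ Real.log (Real.log w) := Real.log_le_log (by linarith) a1
    rw [Real.log_div (by linarith) (by norm_num), ← h3] at h5
    linarith
  have a5 : l4 / 2 ≤ Real.log (Real.log (Real.log w)) := by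
    have h5 : Real.log (l3 / 2) ≤ Real.log (Real.log (Real.log w)) :=
      Real.log_le_log (by linarith) a4
    rw [Real.log_div (by linarith) (by norm_num), ← h4] at h5
    linarith
  exact ⟨a1, a3, a5, by linarith⟩

theorem rr (hKX : StmtKX) (hRK : StmtRK) : StmtRR := by
  obtain ⟨c1, hc1, x0, hKX⟩ := hKX
  obtain ⟨C, hC, w0, hRK⟩ := hRK
  set c : ℝ := min (1 / 1000) (c1 / (64 * C)) with hcdef
  have hc : 0 < c := lt_min (by norm_num) (by positivity)
  have hcs : c ≤ 1 / 1000 := min_le_left _ _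
  have hcC : c ≤ c1 / (64 * C) := min_le_right _ _
  clear_value c
  obtain ⟨X1, hX1⟩ := sizesF c hc hcs
  have t1 : Tendsto Real.log atTop atTop := Real.tendsto_log_atTop
  obtain ⟨X2, hX2⟩ := eventually_atTop.1 ((t1.eventually_ge_atTop (40 * ((w0 : ℝ) + 1))).and
    (eventually_ge_atTop ((x0 : ℝ) + 1)))
  refine ⟨c, hc, max X1 X2, fun x hx => ?_⟩
  obtain ⟨s0, s1, s2, s3, s4, s5, s6, s7⟩ := hX1 x (le_trans (le_max_left _ _) hx)
  obtain ⟨s8, s9⟩ := hX2 x (le_trans (le_max_right _ _) hx)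
  set l1 := Real.log x with h1
  set l2 := Real.log l1 with h2
  set l3 := Real.log l2 with h3
  set l4 := Real.log l3 with h4
  set G : ℝ := l1 * l2 ^ 2 * l4 / l3 ^ 2 with hG
  -- the integer `x'`
  set x' := ⌊x⌋₊ with hx'
  have hx'1 : (x' : ℝ) ≤ x := Nat.floor_le (by linarith)
  have hx'2 : x < x' + 1 := Nat.lt_floor_add_one x
  have hx'3 : 1 ≤ x' := by
    have : (1 : ℝ) < x' + 1 := by linarith
    have : (0 : ℝ) < x' := by linarith
    exact_mod_cast this
  have hx'4 : x0 ≤ x' := by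
    have : (x0 : ℝ) < x' + 1 := by linarith
    have h5 : x0 < x' + 1 := by exact_mod_cast this
    omega
  have hx'5 : (99 : ℝ) ≤ x' := by linarith
  have hlx1 : Real.log x' ≤ l1 := Real.log_le_log (by linarith) hx'1
  have hlx2 : l1 - 1 ≤ Real.log x' := by
    have h5 : Real.log x ≤ Real.log (2 * x') := Real.log_le_log (by linarith) (by linarith)
    rw [Real.log_mul (by norm_num) (by linarith)] at h5
    have := Real.log_two_lt_d9
    linarith
  -- `w`
  set w := ⌊Real.log x' / 20⌋₊ with hw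
  have hlx0 : 0 ≤ Real.log x' / 20 := by linarith
  have hw1 : (w : ℝ) ≤ Real.log x' / 20 := Nat.floor_le hlx0
  have hw2 : Real.log x' / 20 < w + 1 := Nat.lt_floor_add_one _
  have hw3 : l1 / 40 ≤ w := by linarith
  have hw4 : (w : ℝ) ≤ l1 := by linarith
  have hw0 : w0 ≤ w := by
    have : (w0 : ℝ) ≤ w := by linarith
    exact_mod_cast this
  obtain ⟨g1, g2, g3, g4⟩ := logs h2 h3 h4 s2 s3 s4 s5 hw3 hw4
  -- `y`
  have hG0 : 0 ≤ c * G := by linarith
  set y := ⌈c * G⌉₊ with hy
  have hy1 : c * G ≤ y := Nat.le_ceil _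
  have hy2 : (y : ℝ) < c * G + 1 := Nat.ceil_lt_add_one hG0
  have hy3 : (y : ℝ) ≤ 2 * (c * G) := by linarith
  have hwy : w ≤ y := by
    have : (w : ℝ) ≤ y := by linarith
    exact_mod_cast this
  have hl1y : Real.log x' ≤ y := by linarith
  -- `G` is at most `l1 * l2 ^ 2`
  have hGle : G ≤ l1 * l2 ^ 2 := by
    rw [hG, div_le_iff₀ (by positivity)]
    have : l4 ≤ l3 ^ 2 := by nlinarith
    exact mul_le_mul_of_nonneg_left this (by positivity)
  have hyw : (y : ℝ) ≤ w * Real.log w ^ 2 := by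
    calc (y : ℝ) ≤ 2 * (c * G) := hy3
      _ ≤ 2 * (1 / 1000 * (l1 * l2 ^ 2)) := by
          have hG00 : 0 ≤ G := by positivity
          gcongr
      _ ≤ (l1 / 40) * (l2 / 2) ^ 2 := by
          have : 0 ≤ l1 * l2 ^ 2 := by positivity
          nlinarith
      _ ≤ w * Real.log w ^ 2 := by
          gcongr
  have hyl : (y : ℝ) ≤ Real.log x' ^ 2 := by
    calc (y : ℝ) ≤ 2 * (c * G) := hy3
      _ ≤ 2 * (1 / 1000 * (l1 * l2 ^ 2)) := by
          have hG00 : 0 ≤ G := by positivity
          gcongr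
      _ ≤ 2 * (1 / 1000 * (l1 * (l1 / 16))) := by
          gcongr
          linarith
      _ ≤ (l1 - 1) ^ 2 := by nlinarith
      _ ≤ Real.log x' ^ 2 := by
          apply pow_le_pow_left₀ (by linarith) hlx2
  -- the class
  obtain ⟨a, ha, hcard⟩ := hRK w y hw0 hwy hyw
  set P := (Icc 1 y).filter (fun h => Nat.Coprime (a + h) (primorial w)) with hP
  have hPc : (P.card : ℝ) ≤ c1 * Real.log x' := by
    have g5 : 0 < Real.log (Real.log (Real.log w)) := by linarith
    have g6 : 0 < Real.log w := by linarith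
    calc (P.card : ℝ) ≤ C * y * Real.log (Real.log w) ^ 2 /
          (Real.log w ^ 2 * Real.log (Real.log (Real.log w))) := hcard
      _ ≤ C * (2 * (c * G)) * l3 ^ 2 / ((l2 / 2) ^ 2 * (l4 / 2)) := by
          apply div_le_div₀ (by positivity) _ (by positivity) (by gcongr)
          gcongr
      _ = 16 * C * c * l1 := by
          rw [hG]
          field_simp
          ring
      _ ≤ c1 * (l1 / 2) := by
          have h5 : c * (64 * C) ≤ c1 := by
            rw [le_div_iff₀ (by positivity)] at hcC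
            exact hcC
          have h6 : 16 * C * c ≤ c1 / 2 := by linarith
          calc 16 * C * c * l1 ≤ c1 / 2 * l1 := mul_le_mul_of_nonneg_right h6 (by linarith)
            _ = c1 * (l1 / 2) := by ring
      _ ≤ c1 * Real.log x' := by
          apply mul_le_mul_of_nonneg_left _ hc1.le
          linarith
  obtain ⟨n, hn, hnp⟩ := hKX x' y hx'4 hl1y hyl a ha P (Finset.filter_subset _ _) hPc
  rw [NN, mem_filter, mem_Ioc] at hn
  obtain ⟨⟨hn1, hn2⟩, hn3⟩ := hn
  have hn4 : w < n := by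
    have h5 : (x' : ℝ) < 2 * (n : ℝ) + 1 := by
      have : x' < 2 * n + 1 := by omega
      exact_mod_cast this
    have h6 : (w : ℝ) < n := by
      have h7 : Real.log x' ≤ x' := Real.log_le_self (by linarith)
      linarith
    exact_mod_cast h6
  have hn5 : 2 ≤ n := by
    have h5 : (99 : ℝ) < 2 * (n : ℝ) + 1 := by
      have : x' < 2 * n + 1 := by omega
      have h6 : (x' : ℝ) < 2 * (n : ℝ) + 1 := by exact_mod_cast this
      linarith
    have h6 : (2 : ℝ) ≤ n := by linarith
    exact_mod_cast h6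
  have hfree : ∀ h, 1 ≤ h → h ≤ y → ¬ (n + h).Prime := by
    intro h hh1 hh2 hpr
    by_cases hmem : h ∈ P
    · exact hnp h hmem hpr
    · apply hmem
      rw [hP, mem_filter, mem_Icc]
      refine ⟨⟨hh1, hh2⟩, ?_⟩
      apply coprime_class (n := n) hn3
      exact Pool.Agent.Helper88.LG.coprime_of_prime hpr (by omega)
  obtain ⟨k1, k2⟩ := gap_of_idx hn5 hfree
  refine ⟨idx n, ?_, ?_⟩
  · have h5 : ((Nat.nth Nat.Prime (idx n) : ℕ) : ℝ) ≤ n := by exact_mod_cast k1
    have h6 : (n : ℝ) ≤ x' := by exact_mod_cast hn2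
    linarith
  · have h5 : ((n + y + 1 : ℕ) : ℝ) ≤ (Nat.nth Nat.Prime (idx n + 1) : ℝ) := by
      exact_mod_cast k2
    have h6 : ((Nat.nth Nat.Prime (idx n) : ℕ) : ℝ) ≤ n := by exact_mod_cast k1
    push_cast at h5
    linarith

end Pool.Agent.Helper88.RR
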