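import Pool.Agent.Helper88.RR.MainA
import Pool.Agent.Helper88.RR.VL
import Pool.Agent.Helper77.RR.TS

/-!
# Large gaps between the primes
-/

namespace Pool.Agent.Helper88.RR

theorem main : StmtRR := mainA vl Pool.Agent.Helper77.RR.ts

end Pool.Agent.Helper88.RR
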