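import Pool.Agent.Helper88.PP.Goals

/-!
# Large gaps between the primes: statements

The weights of `PP`, now with parameters which grow with `x`.  As before everything is about the
integers `n ∈ (x/2, x]` in a fixed class `b` modulo `QQ x`, the product of the primes up to
`log x / 20`, and about the points `n + i`, `1 ≤ i ≤ y`.
-/

set_option autoImplicit false

open Finset Filter Topology

open scoped Classical

namespace Pool.Agent.Helper88.RR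

open Pool.Agent.Helper88.PP (pr Rg om Sf SS uu vv ee LA VV QQ NN XX cost nc dd)

/-- the density of the integers `n` such that none of `k` given points `n + i`, `i ≤ y`, has a
prime factor in `(y, z]` -/
noncomputable def gg (y z k : ℕ) : ℝ := ∏ p ∈ pr y z, (1 - (k : ℝ) / p)

/-- `z = x^(1/E)`, `E ≤ log z ≤ 2 E` and `log x ≤ y ≤ (log x)^2` -/
def Sr (E z x y : ℕ) : Prop :=
  Real.exp E ≤ z ∧ (z : ℝ) ≤ Real.exp (2 * E) ∧ z ^ E ≤ x ∧ x < (z + 1) ^ E ∧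
    Real.log x ≤ y ∧ (y : ℝ) ≤ Real.log x ^ 2

/-- the coefficient of the label `r`; the labels are in `LA z m (q * m)` -/
noncomputable def ab (m q z r : ℕ) : ℝ :=
  1 / (VV z m (q * m) * (Nat.totient r : ℝ) * ee z r)

/-- the label functions on the set of points `P`, of total cost at most `M` -/
noncomputable def TB (m q M z : ℕ) (P : Finset ℕ) : Finset (P → ℕ) :=
  (Fintype.piFinset (fun _ : P => insert 0 (LA z m (q * m)))).filter (fun r => cost z r ≤ M)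

/-- the weight: the part of small cost of `∏_{i ∈ P} (1 - S(n + i))` -/
noncomputable def WB (m q M z y : ℕ) (P : Finset ℕ) (n : ℕ) : ℝ :=
  ∑ r ∈ TB m q M z P, ∏ i : P,
    ((if r i = 0 then 1 else - ab m q z (r i)) * vv y z (r i) (n + (i : ℕ)))

/-- the number of nonzero labels -/
noncomputable def nz {ι : Type} [Fintype ι] (r : ι → ℕ) : ℕ := (univ.filter (fun i => r i ≠ 0)).card

/-- the contribution of the label function `r` to the mean square of the weight -/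
noncomputable def wb (m q y z : ℕ) {P : Finset ℕ} (r : P → ℕ) : ℝ :=
  gg y z (nz r) * ∏ i : P, (if r i = 0 then 1 else ab m q z (r i) ^ 2 * (Nat.totient (r i) : ℝ))

/-- the mean square of the weight -/
noncomputable def DB (m q M z y : ℕ) (P : Finset ℕ) : ℝ := ∑ r ∈ TB m q M z P, wb m q y z r

/-- what is left over at a prime -/
noncomputable def Db (m q M z t : ℕ) : ℝ :=
  ∑ s ∈ (LA z m (q * m)).filter (fun s => M < t + ee z s), ab m q z s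

/-- the normalisation of the majorant of the primes -/
noncomputable def VM (M z : ℕ) : ℝ := ∑ s ∈ SS z (z ^ M), 1 / (Nat.totient s : ℝ)

/-- the weight at a prime, times the majorant of the primes -/
noncomputable def GB (m q M z y : ℕ) (P : Finset ℕ) (h : P) (n : ℕ) : ℝ :=
  ∑ r ∈ (TB m q M z P).filter (fun r => r h = 0), ∑ s ∈ SS z (z ^ M),
    Db m q M z (cost z r) * (1 / (VM M z * (Nat.totient s : ℝ))) * vv y z s (n + (h : ℕ)) *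
      ∏ i : P, ((if r i = 0 then 1 else - ab m q z (r i)) * vv y z (r i) (n + (i : ℕ)))

/-! ### sieve -/

/-- Bonferroni inequalities for a sum over `t < N` -/
def StmtBO : Prop := ∀ (S : Finset ℕ) (w : ℕ → ℕ → ℝ) (r N : ℕ), (∀ p ∈ S, p.Prime) →
  (∀ p ∈ S, ∀ t, 0 ≤ w p t ∧ w p t ≤ 1) → (∀ p ∈ S, ∀ t, w p (t + p) = w p t) →
  |∑ t ∈ range N, ∏ p ∈ S, (1 - w p t) - N * ∏ p ∈ S, (1 - (∑ t ∈ range p, w p t) / p)|
    ≤ 2 * N * ((∑ p ∈ S, (∑ t ∈ range p, w p t) / p) ^ (r + 1) / (r + 1).factorial)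
      + (1 + ∑ p ∈ S, ∑ t ∈ range p, w p t) ^ (r + 1)

/-- counting in the class `b`, with roughness and divisibility conditions at few points, with a
very small error -/
def StmtTL : Prop := ∃ c : ℝ, 0 < c ∧ ∃ E0 : ℕ, ∀ E z x y : ℕ, E0 ≤ E → Sr E z x y →
  ∀ b : ℕ, b < QQ x → ∀ B : Finset ℕ, B ⊆ Icc 1 y → B.card ^ 2 ≤ E →
  ∀ d : ℕ → ℕ, (∀ i ∈ B, Sf z (d i)) → ∏ i ∈ B, d i ≤ z ^ (E / 4) →
  ((∀ i ∈ B, ∀ j ∈ B, i ≠ j → Nat.Coprime (d i) (d j)) →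
    |(((NN x b).filter (fun n => ∀ i ∈ B, d i ∣ n + i ∧ Rg y z (n + i))).card : ℝ)
      - XX x * (gg y z B.card * ∏ i ∈ B, (1 / (d i : ℝ)))|
      ≤ Real.exp (-(c * E)) * (XX x * ∏ i ∈ B, (om y z / d i)))
  ∧ (¬ (∀ i ∈ B, ∀ j ∈ B, i ≠ j → Nat.Coprime (d i) (d j)) →
    ((NN x b).filter (fun n => ∀ i ∈ B, d i ∣ n + i ∧ Rg y z (n + i))).card = 0)

/-- the second moment of a function given by labels; the density of the roughness condition at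
`k` points is `ga k` -/
def StmtTR : Prop := ∀ (ι : Type) [Fintype ι] [DecidableEq ι] (pt : ι → ℕ) (y z X D K : ℕ)
  (N : Finset ℕ) (Y o δ C : ℝ) (ga : ℕ → ℝ) (T : Finset (ι → ℕ)) (c : (ι → ℕ) → ℝ)
  (al : ι → ℕ → ℝ) (BB : Finset (Finset ι)),
  2 ≤ z → 0 ≤ Y → 0 ≤ o → 0 ≤ δ → 1 ≤ C → (∀ k ≤ K, 0 ≤ ga k ∧ ga k ≤ o ^ k) →
  (∀ r ∈ T, ∀ i, r i = 0 ∨ r i ∈ SS z X) →
  (∀ r ∈ T, ∀ s ∈ T, ∀ i, r i = 1 → s i ≠ 0) →
  (∀ r ∈ T, (∏ i, max 1 (r i)) ^ 2 ≤ D) →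
  (∀ r ∈ T, ∀ s ∈ T, (univ.filter (fun i => r i ≠ 0 ∨ s i ≠ 0)) ∈ BB) →
  (∀ B ∈ BB, B.card ≤ K) →
  (∀ i r, 0 ≤ al i r) → (∀ i, al i 0 ≤ 1) → (∀ r ∈ T, |c r| ≤ ∏ i, al i (r i)) →
  (∀ i, ∀ d ∈ SS z X, (d : ℝ) * ∑ r ∈ (SS z X).filter (fun r => d ∣ r), al i r ≤ C) →
  (∀ d : ι → ℕ, (∀ i, d i = 0 ∨ Sf z (d i)) → ∏ i, max 1 (d i) ≤ D →
    (univ.filter (fun i => d i ≠ 0)) ∈ BB →
    ((∀ i j, i ≠ j → d i ≠ 0 → d j ≠ 0 → Nat.Coprime (d i) (d j)) →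
      |((N.filter (fun n => ∀ i, d i ≠ 0 → d i ∣ n + pt i ∧ Rg y z (n + pt i))).card : ℝ)
        - Y * (ga (nz d) * ∏ i, (if d i = 0 then 1 else 1 / (d i : ℝ)))|
        ≤ δ * (Y * ∏ i, dd o (d i)))
    ∧ (¬ (∀ i j, i ≠ j → d i ≠ 0 → d j ≠ 0 → Nat.Coprime (d i) (d j)) →
      (N.filter (fun n => ∀ i, d i ≠ 0 → d i ∣ n + pt i ∧ Rg y z (n + pt i))).card = 0)) →
  |∑ n ∈ N, (∑ r ∈ T, c r * ∏ i, vv y z (r i) (n + pt i)) ^ 2
      - Y * ∑ r ∈ T, c r ^ 2 *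
        (ga (nz r) * ∏ i, (if r i = 0 then 1 else (Nat.totient (r i) : ℝ)))|
    ≤ Y * (δ + 9 * K ^ 2 / z) *
      ∑ B ∈ BB, (o * (3 * C ^ 2 * ∑ e ∈ SS z (X ^ 2), (3 : ℝ) ^ e.primeFactors.card / e)) ^ B.card

/-! ### sums over rough numbers -/

/-- the normalisation is at least a multiple of `log q` -/
def StmtVL : Prop := ∃ c : ℝ, 0 < c ∧ ∀ j m z : ℕ, 1 ≤ m → 2 ≤ z →
  c * j - 1 ≤ VV z m (2 ^ j * m)

/-- the bound for the divisor coefficients -/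
def StmtCB : Prop := ∃ C : ℝ, 1 ≤ C ∧ ∀ m q M z : ℕ, 1 ≤ m → 2 ≤ z → M ≤ z →
  1 ≤ VV z m (q * m) → ∀ d ∈ SS z (z ^ M),
    ((d : ℝ) * ∑ r ∈ (LA z m (q * m)).filter (fun r => d ∣ r), ab m q z r ≤ C) ∧
    ((d : ℝ) * ∑ r ∈ (SS z (z ^ M)).filter (fun r => d ∣ r), 1 / (Nat.totient r : ℝ)
      ≤ C * ∑ r ∈ SS z (z ^ M), 1 / (Nat.totient r : ℝ))

/-- the second moment of a function given by labels, for our parameters; `F` is a set of at most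
one point where all labels are nonzero -/
def StmtTS : Prop := ∃ c : ℝ, 0 < c ∧ ∃ E0 : ℕ, ∀ E z x y : ℕ, E0 ≤ E → Sr E z x y →
  ∀ b : ℕ, b < QQ x → ∀ m q K : ℕ, 1 ≤ m → q * m ≤ E / 16 → 1 ≤ VV z m (q * m) → K ^ 3 ≤ E →
  ∀ P : Finset ℕ, P ⊆ Icc 1 y → (P.card : ℝ) * om y z ≤ (E : ℝ) ^ 2 →
  ∀ (T : Finset (P → ℕ)) (a : (P → ℕ) → ℝ) (F : Finset P), F.card ≤ 1 →
  (∀ r ∈ T, ∀ i, i ∉ F → (r i = 0 ∨ r i ∈ LA z m (q * m))) →
  (∀ r ∈ T, ∀ i ∈ F, r i ∈ SS z (z ^ (E / 16))) →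
  (∀ r ∈ T, nz r ≤ K) →
  (∀ r ∈ T, ∏ i, max 1 (r i) ≤ z ^ (2 * (E / 16))) →
  (∀ r ∈ T, |a r| ≤ ∏ i, (if i ∈ F then 1 / (VM (E / 16) z * (Nat.totient (r i) : ℝ)) else
    if r i = 0 then 1 else ab m q z (r i))) →
  |∑ n ∈ NN x b, (∑ r ∈ T, a r * ∏ i, vv y z (r i) (n + (i : ℕ))) ^ 2
      - XX x * ∑ r ∈ T, a r ^ 2 *
        (gg y z (nz r) * ∏ i, (if r i = 0 then 1 else (Nat.totient (r i) : ℝ)))|
    ≤ Real.exp (-(c * E)) * om y z ^ F.card * XX x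

/-! ### the moments of the weight -/

/-- the mean square -/
def StmtS1 : Prop := ∃ c : ℝ, 0 < c ∧ ∃ E0 : ℕ, ∀ E z x y : ℕ, E0 ≤ E → Sr E z x y →
  ∀ b : ℕ, b < QQ x → ∀ m q : ℕ, 1 ≤ m → q * m ≤ E / 16 → 1 ≤ VV z m (q * m) →
  (E / 16 / m + 1) ^ 3 ≤ E →
  ∀ P : Finset ℕ, P ⊆ Icc 1 y → (P.card : ℝ) * om y z ≤ (E : ℝ) ^ 2 →
    1 ≤ DB m q (E / 16) z y P ∧
    |∑ n ∈ NN x b, WB m q (E / 16) z y P n ^ 2 - XX x * DB m q (E / 16) z y P|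
      ≤ Real.exp (-(c * E)) * XX x

/-- at a prime the weight is `GB` -/
def StmtPW : Prop := ∀ (m q M z y : ℕ) (P : Finset ℕ) (h : P) (n : ℕ), 2 ≤ M → 1 ≤ m →
  2 ≤ z → VV z m (q * m) ≠ 0 → q * m ≤ M → (n + (h : ℕ)).Prime → z ^ M ≤ n →
  WB m q M z y P n = GB m q M z y P h n

/-- the mean square of `GB` -/
def StmtGT : Prop := ∃ c : ℝ, 0 < c ∧ ∃ E0 : ℕ, ∀ E z x y : ℕ, E0 ≤ E → Sr E z x y →
  ∀ b : ℕ, b < QQ x → ∀ m q : ℕ, 1 ≤ m → q * m ≤ E / 16 → 1 ≤ VV z m (q * m) →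
  (E / 16 / m + 1) ^ 3 ≤ E →
  ∀ P : Finset ℕ, P ⊆ Icc 1 y → (P.card : ℝ) * om y z ≤ (E : ℝ) ^ 2 → ∀ h : P,
    ∑ n ∈ NN x b, GB m q (E / 16) z y P h n ^ 2 ≤ XX x * om y z *
      (∑ r ∈ (TB m q (E / 16) z P).filter (fun r => E / 16 < cost z r + q * m), wb m q y z r
        + Real.exp (-(c * E)))

/-- the part of large cost is very small -/
def StmtRA : Prop := ∀ (ι : Type) [Fintype ι] [DecidableEq ι] (S : Finset ℕ) (e : ℕ → ℕ)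
  (w : ℕ → ℝ) (g : ℕ → ℝ) (o : ℝ) (M m j : ℕ), 0 ∉ S → (∀ r ∈ S, e r ≤ m) → (∀ r, 0 ≤ w r) →
  0 ≤ o → (∀ k ≤ Fintype.card ι, 0 ≤ g k) → (∀ k < Fintype.card ι, g (k + 1) ≤ o * g k) →
  2 * (j * m) ≤ M → 4 * ((Fintype.card ι : ℝ) * o * ∑ r ∈ S, (e r : ℝ) * w r) ≤ M →
  2 ^ j * ∑ r ∈ (Fintype.piFinset (fun _ : ι => insert 0 S)).filter
      (fun r => ∑ i, (if r i = 0 then 0 else e (r i)) ≤ M ∧
        M < ∑ i, (if r i = 0 then 0 else e (r i)) + m),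
      g (nz r) * ∏ i, (if r i = 0 then 1 else w (r i))
    ≤ ∑ r ∈ (Fintype.piFinset (fun _ : ι => insert 0 S)).filter
        (fun r => ∑ i, (if r i = 0 then 0 else e (r i)) ≤ M),
      g (nz r) * ∏ i, (if r i = 0 then 1 else w (r i))

/-! ### killing the primes -/

/-- all primes at the points of `P` can be avoided -/
def StmtKI : Prop := ∃ c : ℝ, 0 < c ∧ ∃ E0 : ℕ, ∀ E z x y : ℕ, E0 ≤ E → Sr E z x y →
  ∀ b : ℕ, b < QQ x → ∀ P : Finset ℕ, P ⊆ Icc 1 y →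
  (P.card : ℝ) * om y z ≤ c * (E * Real.log E) → ∃ n ∈ NN x b, ∀ h ∈ P, ¬ (n + h).Prime

/-- the same in terms of `x` -/
def StmtKX : Prop := ∃ c : ℝ, 0 < c ∧ ∃ x0 : ℕ, ∀ x y : ℕ, x0 ≤ x → Real.log x ≤ y →
  (y : ℝ) ≤ Real.log x ^ 2 → ∀ b : ℕ, b < QQ x → ∀ P : Finset ℕ, P ⊆ Icc 1 y →
  (P.card : ℝ) ≤ c * Real.log x → ∃ n ∈ NN x b, ∀ h ∈ P, ¬ (n + h).Prime

/-- the choice of the class -/
def StmtRK : Prop := ∃ C : ℝ, 0 < C ∧ ∃ w0 : ℕ, ∀ w H : ℕ, w0 ≤ w → w ≤ H →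
  (H : ℝ) ≤ w * Real.log w ^ 2 → ∃ a : ℕ, a < primorial w ∧
  (((Icc 1 H).filter (fun h => Nat.Coprime (a + h) (primorial w))).card : ℝ)
    ≤ C * H * Real.log (Real.log w) ^ 2 / (Real.log w ^ 2 * Real.log (Real.log (Real.log w)))

/-- the main theorem: large gaps between primes -/
def StmtRR : Prop := ∃ c : ℝ, 0 < c ∧ ∃ X : ℝ, ∀ x : ℝ, X ≤ x → ∃ n : ℕ,
  (Nat.nth Nat.Prime n : ℝ) ≤ x ∧
  c * (Real.log x * Real.log (Real.log x) ^ 2 *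
      Real.log (Real.log (Real.log (Real.log x))) / Real.log (Real.log (Real.log x)) ^ 2)
    ≤ (Nat.nth Nat.Prime (n + 1) : ℝ) - Nat.nth Nat.Prime n - 1

end Pool.Agent.Helper88.RR
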