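import Pool.Agent.Helper88.RR.KI
import Pool.Agent.Helper88.RR.KX
import Pool.Agent.Helper88.RR.Fin
import Pool.Agent.Helper28.RR.RA
import Pool.Agent.Helper31.RR.CB
import Pool.Agent.Helper33.RR.GT
import Pool.Agent.Helper59.RR.PW
import Pool.Agent.Helper6.RR.BO
import Pool.Agent.Helper64.RR.TL
import Pool.Agent.Helper69.RR.TR
import Pool.Agent.Helper73.RR.RK
import Pool.Agent.Helper85.RR.S1
import Pool.Agent.Helper42.PP.TRE

/-!
# Large gaps between the primes: the assembly
-/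

namespace Pool.Agent.Helper88.RR

theorem mainA (vl : StmtVL) (ts : StmtTL → StmtTR → StmtCB → StmtTS) : StmtRR := by
  have h1 : StmtTS := ts (Pool.Agent.Helper64.RR.tl Pool.Agent.Helper6.RR.bo)
    (Pool.Agent.Helper69.RR.tr Pool.Agent.Helper42.PP.tre) Pool.Agent.Helper31.RR.cb
  have h2 : StmtKI := ki vl (Pool.Agent.Helper85.RR.s1 h1) Pool.Agent.Helper59.RR.pw
    (Pool.Agent.Helper33.RR.gt h1) Pool.Agent.Helper28.RR.ra
  exact rr (kx h2) Pool.Agent.Helper73.RR.rk

end Pool.Agent.Helper88.RR
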